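import Pool.Agent.U307.RAD.Stm
import Pool.Agent.N892.BW.PLZ

/-!
# Project RAD, package L2 (helper869)
-/

set_option autoImplicit false

open MeasureTheory Filter Topology Set
open scoped ENNReal SchwartzMap ComplexConjugate FourierTransform

namespace Pool.Agent.U869.RAD.L2

open Pool.Agent.U307.RAD

theorem TS_same (n : ℕ) (f : SchwartzMap ℂ ℂ) : TS n f = Pool.Agent.N892.BW.TS n f := rfl

theorem norm_ee (t : ℝ) : ‖ee t‖ = 1 := by
  have h : (2 * (Real.pi : ℂ) * Complex.I * (t : ℂ)) = ((2 * Real.pi * t : ℝ) : ℂ) * Complex.I := by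
    push_cast; ring
  rw [ee, h, Complex.norm_exp_ofReal_mul_I]

theorem cont_ee : Continuous ee := by
  unfold ee
  fun_prop

theorem TS_cont (n : ℕ) (f : SchwartzMap ℂ ℂ) : Continuous (TS n f) := by
  have hI : Integrable (𝓕 (fun z : ℂ => f z) : ℂ → ℂ) := by
    rw [Pool.Agent.N892.BW.PLZ.four_S]; exact (𝓕 f).integrable
  have hGI : Integrable (Pool.Agent.N892.BW.PLZ.G n f) :=
    hI.mono (Pool.Agent.N892.BW.PLZ.meas_G n f).aestronglyMeasurable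
      (Eventually.of_forall (Pool.Agent.N892.BW.PLZ.norm_G n f))
  have h1 : Continuous (𝓕 (Pool.Agent.N892.BW.PLZ.G n f) : ℂ → ℂ) :=
    VectorFourier.fourierIntegral_continuous Real.continuous_fourierChar
      (by exact (continuous_inner : Continuous fun p : ℂ × ℂ => inner ℝ p.1 p.2)) hGI
  have h2 : TS n f = fun z => 𝓕 (Pool.Agent.N892.BW.PLZ.G n f) (-z) := by
    funext z
    rw [TS_same, Pool.Agent.N892.BW.PLZ.TS_eq]
  rw [h2]
  exact h1.comp continuous_neg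

/-- Cauchy-Schwarz (Jensen) on the unit interval -/
theorem jensen (h : ℝ → ℂ) (hh : Continuous h) :
    ‖∫ t in (0 : ℝ)..1, h t‖ₑ ^ (2 : ℝ) ≤ ∫⁻ t in Ioc (0 : ℝ) 1, ‖h t‖ₑ ^ (2 : ℝ) := by
  rw [intervalIntegral.integral_of_le zero_le_one]
  have h1 : ‖∫ t in Ioc (0 : ℝ) 1, h t‖ₑ ≤ ∫⁻ t in Ioc (0 : ℝ) 1, ‖h t‖ₑ :=
    enorm_integral_le_lintegral_enorm _
  refine (ENNReal.rpow_le_rpow h1 (by norm_num)).trans ?_
  have h2 := ENNReal.lintegral_mul_le_Lp_mul_Lq (volume.restrict (Ioc (0 : ℝ) 1))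
    (p := 2) (q := 2) ⟨by norm_num, by norm_num, by norm_num⟩
    (f := fun t => ‖h t‖ₑ) (g := fun _ => 1) hh.enorm.aemeasurable aemeasurable_const
  simp only [Pi.mul_apply, mul_one, ENNReal.one_rpow, lintegral_const, Measure.restrict_apply
    MeasurableSet.univ, univ_inter, Real.volume_Ioc, sub_zero, ENNReal.ofReal_one] at h2
  refine (ENNReal.rpow_le_rpow h2 (by norm_num : (0 : ℝ) ≤ 2)).trans ?_
  rw [← ENNReal.rpow_mul]
  norm_num

theorem rot (G : ℂ → ℂ) (hG : Continuous G) (a : ℂ) (ha : ‖a‖ = 1) :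
    ∫⁻ z, ‖G (a * z)‖ₑ ^ (2 : ℝ) = ∫⁻ z, ‖G z‖ₑ ^ (2 : ℝ) := by
  have h1 : MeasurePreserving (rotation ⟨a, by simpa [Submonoid.unitSphere] using ha⟩ : ℂ → ℂ) :=
    LinearIsometryEquiv.measurePreserving _
  have h2 := h1.lintegral_comp (f := fun z => ‖G z‖ₑ ^ (2 : ℝ)) (by
    exact (hG.enorm.measurable.pow_const _))
  simpa [rotation_apply] using h2

theorem PP_sq (m : ℕ) (G : ℂ → ℂ) (hG : Continuous G) :
    ∫⁻ z, ‖PP m G z‖ₑ ^ (2 : ℝ) ≤ ∫⁻ z, ‖G z‖ₑ ^ (2 : ℝ) := by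
  calc ∫⁻ z, ‖PP m G z‖ₑ ^ (2 : ℝ)
      ≤ ∫⁻ z, ∫⁻ t in Ioc (0 : ℝ) 1, ‖ee t ^ m * G (ee t * z)‖ₑ ^ (2 : ℝ) := by
        refine lintegral_mono fun z => ?_
        exact jensen _ (by have := cont_ee; fun_prop)
    _ = ∫⁻ z, ∫⁻ t in Ioc (0 : ℝ) 1, ‖G (ee t * z)‖ₑ ^ (2 : ℝ) := by
        refine lintegral_congr fun z => lintegral_congr fun t => ?_
        rw [enorm_mul, enorm_pow]
        have : ‖ee t‖ₑ = 1 := by rw [← ofReal_norm, norm_ee, ENNReal.ofReal_one]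
        rw [this, one_pow, one_mul]
    _ = ∫⁻ t in Ioc (0 : ℝ) 1, ∫⁻ z, ‖G (ee t * z)‖ₑ ^ (2 : ℝ) := by
        refine lintegral_lintegral_swap ?_
        have hc : Continuous fun q : ℂ × ℝ => ‖G (ee q.2 * q.1)‖ₑ := by
          have := cont_ee
          exact (hG.comp (by fun_prop)).enorm
        exact (hc.measurable.pow_const _).aemeasurable
    _ = ∫⁻ t in Ioc (0 : ℝ) 1, ∫⁻ z, ‖G z‖ₑ ^ (2 : ℝ) := by
        refine lintegral_congr fun t => rot G hG _ (norm_ee t)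
    _ = ∫⁻ z, ‖G z‖ₑ ^ (2 : ℝ) := by
        rw [lintegral_const, Measure.restrict_apply MeasurableSet.univ, univ_inter, Real.volume_Ioc]
        simp

theorem t_L2 : S_L2 := by
  intro n l f
  refine (PP_sq _ _ (TS_cont n f)).trans ?_
  have := Pool.Agent.N892.BW.PLZ.sq_le n f
  rw [TS_same]
  simpa only [← ENNReal.rpow_natCast, Nat.cast_ofNat] using this

end Pool.Agent.U869.RAD.L2
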