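import Pool.Agent.U307.RAD.Stm3

/-! Package KBIG of project RAD: the bound `KU n l ≤ 13 / 2 n` for large `n`. -/

set_option autoImplicit false

open MeasureTheory Set

namespace Pool.Agent.U869.RAD.KBIG

open Pool.Agent.U307.RAD

/-- `uu / r` -/
noncomputable def wu (n l : ℕ) (r : ℝ) : ℝ :=
  2 * ∑ i ∈ Finset.range n, Cc n l i * r ^ (l - 1 + 2 * i)

/-- `ph / r` -/
noncomputable def wp (n l : ℕ) (r : ℝ) : ℝ :=
  ∑ i ∈ Finset.range (n + 1), aa n l i * r ^ (l - 1 + 2 * i)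

theorem uu_eq {n l : ℕ} (hl : 1 ≤ l) (r : ℝ) : uu n l r = r * wu n l r := by
  unfold uu wu
  simp only [Finset.mul_sum]
  refine Finset.sum_congr rfl fun i _ => ?_
  rw [show l + 2 * i = (l - 1 + 2 * i) + 1 by omega, pow_succ]
  ring

theorem ph_eq {n l : ℕ} (hl : 1 ≤ l) (r : ℝ) : ph n l r = r * wp n l r := by
  unfold ph wp
  simp only [Finset.mul_sum]
  refine Finset.sum_congr rfl fun i _ => ?_
  rw [show l + 2 * i = (l - 1 + 2 * i) + 1 by omega, pow_succ]
  ring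

theorem continuous_wu (n l : ℕ) : Continuous (wu n l) := by
  unfold wu
  fun_prop

theorem continuous_wp (n l : ℕ) : Continuous (wp n l) := by
  unfold wp
  fun_prop

theorem int_ph {n l : ℕ} (hl : 1 ≤ l) :
    ∫ r in (0 : ℝ)..1, |ph n l r| / r = ∫ r in (0 : ℝ)..1, |wp n l r| := by
  refine intervalIntegral.integral_congr_ae (Filter.Eventually.of_forall fun r hr => ?_)
  rw [uIoc_of_le zero_le_one] at hr
  have h0 : 0 < r := hr.1
  rw [ph_eq hl, abs_mul, abs_of_pos h0]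
  field_simp

theorem int_uu {n l : ℕ} (hl : 1 ≤ l) :
    ∫ r in (0 : ℝ)..1, |uu n l r| / r = ∫ r in (0 : ℝ)..1, |wu n l r| := by
  refine intervalIntegral.integral_congr_ae (Filter.Eventually.of_forall fun r hr => ?_)
  rw [uIoc_of_le zero_le_one] at hr
  have h0 : 0 < r := hr.1
  rw [uu_eq hl, abs_mul, abs_of_pos h0]
  field_simp

theorem int_qq {n l : ℕ} (hl : 1 ≤ l) :
    ∫ r in (0 : ℝ)..1, |qq n l r| = ∫ r in (0 : ℝ)..1, r ^ 2 * |wu n l r| := by
  refine intervalIntegral.integral_congr fun r hr => ?_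
  rw [uIcc_of_le zero_le_one] at hr
  unfold qq
  rw [uu_eq hl, abs_mul, abs_mul, abs_of_nonneg hr.1]
  ring

/-- the splitting -/
theorem KU_le (hCD : S_CD) {n l : ℕ} (hn : 1 ≤ n) (hl : 1 ≤ l) :
    KU n l ≤ KI n l + 2 * ((n : ℝ) * (n + l) / (2 * n + l)) *
      ((∫ r in (0 : ℝ)..1, |ph (n - 1) l r| / r) + ∫ r in (0 : ℝ)..1, |ph n l r| / r) := by
  unfold KU KI
  rw [int_uu hl, int_qq hl, int_ph hl, int_ph hl]
  set γ : ℝ := (n : ℝ) * (n + l) / (2 * n + l) with hγ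
  have hγ0 : 0 ≤ γ := by positivity
  have cu := continuous_wu n l
  have cp := continuous_wp n l
  have cp' := continuous_wp (n - 1) l
  have c1 : IntervalIntegrable (fun r : ℝ => r ^ 2 * |wu n l r|) volume 0 1 :=
    (by fun_prop : Continuous fun r : ℝ => r ^ 2 * |wu n l r|).intervalIntegrable _ _
  have c2 : IntervalIntegrable (fun r : ℝ => (1 - r ^ 2) * |wu n l r|) volume 0 1 :=
    (by fun_prop : Continuous fun r : ℝ => (1 - r ^ 2) * |wu n l r|).intervalIntegrable _ _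
  have c3 : IntervalIntegrable (fun r : ℝ => |wp (n - 1) l r|) volume 0 1 :=
    (by fun_prop : Continuous fun r : ℝ => |wp (n - 1) l r|).intervalIntegrable _ _
  have c4 : IntervalIntegrable (fun r : ℝ => |wp n l r|) volume 0 1 :=
    (by fun_prop : Continuous fun r : ℝ => |wp n l r|).intervalIntegrable _ _
  have e1 : ∫ r in (0 : ℝ)..1, |wu n l r| = (∫ r in (0 : ℝ)..1, r ^ 2 * |wu n l r|) +
      ∫ r in (0 : ℝ)..1, (1 - r ^ 2) * |wu n l r| := by
    rw [← intervalIntegral.integral_add c1 c2]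
    refine intervalIntegral.integral_congr fun r _ => ?_
    ring
  have e2 : ∫ r in (0 : ℝ)..1, (1 - r ^ 2) * |wu n l r| ≤
      ∫ r in (0 : ℝ)..1, 2 * γ * (|wp (n - 1) l r| + |wp n l r|) := by
    refine intervalIntegral.integral_mono_on_of_le_Ioo zero_le_one c2
      ((c3.add c4).const_mul _) fun r hr => ?_
    have h0 : 0 < r := hr.1
    have h1 : 0 ≤ 1 - r ^ 2 := by nlinarith [hr.1, hr.2]
    have h2 := hCD n l r hn
    rw [uu_eq hl, ph_eq hl, ph_eq hl, ← hγ] at h2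
    have h3 : (1 - r ^ 2) * wu n l r = 2 * γ * (wp (n - 1) l r - wp n l r) := by
      apply mul_left_cancel₀ h0.ne'
      linear_combination h2
    have h4 : (1 - r ^ 2) * |wu n l r| = |(1 - r ^ 2) * wu n l r| := by
      rw [abs_mul, abs_of_nonneg h1]
    rw [h4, h3, abs_mul, abs_of_nonneg (by positivity : 0 ≤ 2 * γ)]
    exact mul_le_mul_of_nonneg_left (abs_sub _ _) (by positivity)
  rw [intervalIntegral.integral_const_mul, intervalIntegral.integral_add c3 c4] at e2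
  rw [e1]
  linarith

theorem int_nonneg (n l : ℕ) : 0 ≤ ∫ r in (0 : ℝ)..1, |ph n l r| / r :=
  intervalIntegral.integral_nonneg zero_le_one fun r hr => div_nonneg (abs_nonneg _) hr.1

theorem le_of_pow4 {x c : ℝ} (hc : 0 ≤ c) (h : x ^ 4 ≤ c ^ 4) : x ≤ c := by
  by_contra hcon
  push Not at hcon
  exact absurd h (not_le.2 (pow_lt_pow_left₀ hcon hc (by norm_num)))

theorem bound_one (hPB : S_PB) (n : ℕ) : 2 * ∫ r in (0 : ℝ)..1, |ph n 1 r| / r ≤ 5.22 := by
  apply le_of_pow4 (by norm_num)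
  refine (hPB n 1 le_rfl).trans ?_
  have hpi := Real.pi_pos
  have h1 := Real.pi_lt_d2
  have e : 4 * Real.pi ^ 2 * (1 / ((1 : ℕ) : ℝ) * (46 / (Real.pi * ((1 : ℕ) : ℝ)) +
      4 / ((1 : ℕ) : ℝ) ^ 3)) = 184 * Real.pi + 16 * Real.pi ^ 2 := by
    push_cast
    field_simp
    ring
  rw [e]
  have h2 : Real.pi ^ 2 ≤ 3.15 ^ 2 := by gcongr
  norm_num at h2 ⊢
  linarith

theorem bound_two (hPB : S_PB) (n l : ℕ) (hl : 2 ≤ l) :
    2 * ∫ r in (0 : ℝ)..1, |ph n l r| / r ≤ 3.53 := by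
  apply le_of_pow4 (by norm_num)
  refine (hPB n l (by omega)).trans ?_
  have hpi := Real.pi_pos
  have h1 := Real.pi_lt_d2
  have hl2 : (2 : ℝ) ≤ l := by exact_mod_cast hl
  have hl0 : (0 : ℝ) < l := by linarith
  have e : 4 * Real.pi ^ 2 * (1 / (l : ℝ) * (46 / (Real.pi * (l : ℝ)) +
      4 / (l : ℝ) ^ 3)) = 184 * Real.pi / (l : ℝ) ^ 2 + 16 * Real.pi ^ 2 / (l : ℝ) ^ 4 := by
    field_simp
    ring
  rw [e]
  have h2 : Real.pi ^ 2 ≤ 3.15 ^ 2 := by gcongr
  have h3 : 184 * Real.pi / (l : ℝ) ^ 2 ≤ 184 * Real.pi / 2 ^ 2 := by gcongr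
  have h4 : 16 * Real.pi ^ 2 / (l : ℝ) ^ 4 ≤ 16 * Real.pi ^ 2 / 2 ^ 4 := by gcongr
  norm_num at h2 h3 h4 ⊢
  linarith

theorem rpow_bound {x c : ℝ} (hc : 0 < c) (hx : c ^ 4 ≤ x) :
    x ^ (3 / 4 : ℝ) ≤ x / c := by
  have hx0 : 0 < x := lt_of_lt_of_le (by positivity) hx
  have h1 : c ≤ x ^ (1 / 4 : ℝ) := by
    have h2 : (c ^ 4) ^ (1 / 4 : ℝ) ≤ x ^ (1 / 4 : ℝ) := by gcongr
    have h3 : (c ^ 4) ^ (1 / 4 : ℝ) = c := by
      rw [← Real.rpow_natCast, ← Real.rpow_mul hc.le]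
      norm_num
    rwa [h3] at h2
  rw [le_div_iff₀ hc]
  calc x ^ (3 / 4 : ℝ) * c ≤ x ^ (3 / 4 : ℝ) * x ^ (1 / 4 : ℝ) := by gcongr
    _ = x := by
      rw [← Real.rpow_add hx0]
      norm_num

theorem t_KBIG : S_L1 → S_CD → S_PB → S_KBIG := by
  intro hL1 hCD hPB n l hl h1 h2
  rcases Nat.lt_or_ge l 2 with h | h
  · have hl1 : l = 1 := by omega
    subst hl1
    have hn : 200 ≤ n := h1 rfl
    have hnR : (200 : ℝ) ≤ n := by exact_mod_cast hn
    have a1 := KU_le hCD (n := n) (l := 1) (by omega) le_rfl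
    have a2 := hL1 n 1 (by omega)
    have a3 := bound_one hPB (n - 1)
    have a4 := bound_one hPB n
    have a5 : (n : ℝ) ^ (3 / 4 : ℝ) ≤ n / 3.76 := rpow_bound (by norm_num) (by
      refine le_trans ?_ hnR
      norm_num)
    have a6 : (n : ℝ) * (n + (1 : ℕ)) / (2 * n + (1 : ℕ)) ≤ 0.5014 * n := by
      rw [div_le_iff₀ (by positivity)]
      push_cast
      nlinarith
    have a7 : 0 ≤ (n : ℝ) * (n + (1 : ℕ)) / (2 * n + (1 : ℕ)) := by positivity
    set γ : ℝ := (n : ℝ) * (n + (1 : ℕ)) / (2 * n + (1 : ℕ))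
    set P₁ := ∫ r in (0 : ℝ)..1, |ph (n - 1) 1 r| / r
    set P₂ := ∫ r in (0 : ℝ)..1, |ph n 1 r| / r
    have a8 : 2 * γ * (P₁ + P₂) ≤ γ * 10.44 := by nlinarith
    have a9 : γ * 10.44 ≤ 0.5014 * n * 10.44 := by nlinarith
    have a10 : 4 * ((n : ℝ) / 3.76) ≤ 1.064 * n := by
      rw [mul_div_assoc', div_le_iff₀ (by norm_num)]
      nlinarith
    nlinarith
  · have hl2 : (2 : ℝ) ≤ l := by exact_mod_cast h
    have hlog := h2 h
    have hn0 : n ≠ 0 := by
      rintro rfl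
      simp at hlog
      linarith
    have hn1 : 1 ≤ n := Nat.one_le_iff_ne_zero.2 hn0
    have hnp : (0 : ℝ) < n := by exact_mod_cast hn1
    have hn16 : (16 : ℝ) ≤ n := by
      have b1 : (4 : ℝ) < Real.log n := by linarith
      have b2 : Real.exp 4 < n := (Real.lt_log_iff_exp_lt hnp).1 b1
      have b3 : (16 : ℝ) ≤ Real.exp 4 := by
        have b4 := Real.exp_one_gt_d9
        have b5 : Real.exp 4 = Real.exp 1 ^ 4 := by
          rw [← Real.exp_nat_mul]
          norm_num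
        rw [b5]
        have b6 : (2 : ℝ) ^ 4 ≤ Real.exp 1 ^ 4 := by
          have : (2 : ℝ) ≤ Real.exp 1 := by linarith
          gcongr
        norm_num at b6
        linarith
      linarith
    have hl4 : (l : ℝ) ≤ n / 4 := by
      have b1 : Real.log n = Real.log 4 + Real.log (n / 4) := by
        rw [← Real.log_mul (by norm_num) (by positivity)]
        congr 1
        field_simp
      have b2 : Real.log (n / 4) ≤ n / 4 - 1 := Real.log_le_sub_one_of_pos (by positivity)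
      have b3 : Real.log 4 = 2 * Real.log 2 := by
        rw [show (4 : ℝ) = 2 ^ 2 by norm_num, Real.log_pow]
        norm_num
      have b4 := Real.log_two_lt_d9
      linarith
    have a1 := KU_le hCD (n := n) (l := l) hn1 (by omega)
    have a2 := hL1 n l hn1
    have a3 := bound_two hPB (n - 1) l h
    have a4 := bound_two hPB n l h
    have a5 : (n : ℝ) ^ (3 / 4 : ℝ) ≤ n / 2 := rpow_bound (by norm_num) (by
      refine le_trans ?_ hn16
      norm_num)
    have a6 : (n : ℝ) * (n + l) / (2 * n + l) ≤ 0.5625 * n := by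
      rw [div_le_iff₀ (by positivity)]
      nlinarith
    have a7 : 0 ≤ (n : ℝ) * (n + l) / (2 * n + l) := by positivity
    set γ : ℝ := (n : ℝ) * (n + l) / (2 * n + l)
    set P₁ := ∫ r in (0 : ℝ)..1, |ph (n - 1) l r| / r
    set P₂ := ∫ r in (0 : ℝ)..1, |ph n l r| / r
    have a8 : 2 * γ * (P₁ + P₂) ≤ γ * 7.06 := by nlinarith
    have a9 : γ * 7.06 ≤ 0.5625 * n * 7.06 := by nlinarith
    nlinarith

end Pool.Agent.U869.RAD.KBIG
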